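import Mathlib

/-!
# Product sets need not capture shifted product sets

There are arbitrarily large finite sets `A` for which the elements of `AA + 1` are pairwise coprime,
and for such sets a positive proportion of `AA + 1` is not captured by a product set `EF` with
`|EF| = O(|AA|)` and `|E|`, `|F|` unbounded.
-/

set_option autoImplicit false

open scoped Pointwise

namespace Pool.Agent.Results.MP_fd999f_co.CoprimeShift

/-- the elements of `AA+1` are pairwise coprime -/
def Cop (A : Finset ℕ) : Prop :=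
  (∀ a ∈ A, 0 < a) ∧ ∀ x ∈ A * A, ∀ y ∈ A * A, x ≠ y → Nat.Coprime (x + 1) (y + 1)

lemma not_dvd_of (b c p : ℕ) (hp : p.Prime) (hb : p ∣ b) (h : p ∣ b * c + 1) : False := by
  have h1 : p ∣ b * c := Dvd.dvd.mul_right hb c
  have h2 : p ∣ 1 := (Nat.dvd_add_right h1).1 h
  exact hp.one_lt.ne' (Nat.dvd_one.1 h2)

lemma step (A : Finset ℕ) (hA : Cop A) : ∃ B : Finset ℕ, B.card = A.card + 1 ∧ Cop B := by
  classical
  obtain ⟨hpos, hcop⟩ := hA
  set M := A.sup id with hM
  have hMle : ∀ a ∈ A, a ≤ M := fun a ha => Finset.le_sup (f := id) ha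
  set b := (M * M + 2).factorial with hb
  have hbN : M * M + 2 ≤ b := Nat.self_le_factorial _
  have hbpos : 0 < b := Nat.factorial_pos _
  have hbA : b ∉ A := by
    intro h
    have := hMle b h
    nlinarith
  have hdvd : ∀ d, 0 < d → d ≤ M * M + 2 → d ∣ b := fun d hd hle => Nat.dvd_factorial hd hle
  have hprod : ∀ a ∈ A, ∀ c ∈ A, a * c + 1 ∣ b := by
    intro a ha c hc
    apply hdvd _ (by omega)
    have := Nat.mul_le_mul (hMle a ha) (hMle c hc)
    omega
  -- coprimality of the new numbers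
  have c1 : ∀ a ∈ A, ∀ c ∈ A, ∀ d, Nat.Coprime (a * c + 1) (b * d + 1) := by
    intro a ha c hc d
    apply Nat.Coprime.symm
    rw [Nat.coprime_iff_gcd_eq_one]
    by_contra hne
    obtain ⟨p, hp, hpd⟩ := Nat.exists_prime_and_dvd hne
    have h1 : p ∣ b * d + 1 := hpd.trans (Nat.gcd_dvd_left _ _)
    have h2 : p ∣ a * c + 1 := hpd.trans (Nat.gcd_dvd_right _ _)
    exact not_dvd_of b d p hp (h2.trans (hprod a ha c hc)) h1
  have c2' : ∀ c ∈ A, ∀ d ∈ A, c < d → Nat.Coprime (b * c + 1) (b * d + 1) := by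
    intro c hc d hd hcd
    rw [Nat.coprime_iff_gcd_eq_one]
    by_contra hne
    obtain ⟨p, hp, hpd⟩ := Nat.exists_prime_and_dvd hne
    have h1 : p ∣ b * c + 1 := hpd.trans (Nat.gcd_dvd_left _ _)
    have h2 : p ∣ b * d + 1 := hpd.trans (Nat.gcd_dvd_right _ _)
    have h3 : p ∣ (b * d + 1) - (b * c + 1) := Nat.dvd_sub h2 h1
    have h4 : (b * d + 1) - (b * c + 1) = b * (d - c) := by
      rw [Nat.mul_sub]; omega
    rw [h4] at h3
    rcases (Nat.Prime.dvd_mul hp).1 h3 with h5 | h5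
    · exact not_dvd_of b c p hp h5 h1
    · have h6 : d - c ∣ b := by
        apply hdvd _ (by omega)
        have := hMle d hd
        nlinarith [Nat.sub_le d c]
      exact not_dvd_of b c p hp (h5.trans h6) h1
  have c2 : ∀ c ∈ A, ∀ d ∈ A, c ≠ d → Nat.Coprime (b * c + 1) (b * d + 1) := by
    intro c hc d hd hcd
    rcases Nat.lt_or_gt_of_ne hcd with h | h
    · exact c2' c hc d hd h
    · exact (c2' d hd c hc h).symm
  have c3 : ∀ c ∈ A, Nat.Coprime (b * c + 1) (b * b + 1) := by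
    intro c hc
    rw [Nat.coprime_iff_gcd_eq_one]
    by_contra hne
    obtain ⟨p, hp, hpd⟩ := Nat.exists_prime_and_dvd hne
    have h1 : p ∣ b * c + 1 := hpd.trans (Nat.gcd_dvd_left _ _)
    have h2 : p ∣ b * b + 1 := hpd.trans (Nat.gcd_dvd_right _ _)
    have h3 : (p : ℤ) ∣ (c * c + 1 : ℤ) := by
      have e1 : (p : ℤ) ∣ (b : ℤ) * c + 1 := by exact_mod_cast h1
      have e2 : (p : ℤ) ∣ (b : ℤ) * b + 1 := by exact_mod_cast h2
      have e3 : (c * c + 1 : ℤ) = c * c * ((b : ℤ) * b + 1) - ((b : ℤ) * c + 1) * ((b : ℤ) * c - 1) := by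
        ring
      rw [e3]
      exact dvd_sub (Dvd.dvd.mul_left e2 _) (Dvd.dvd.mul_right e1 _)
    have h4 : p ∣ c * c + 1 := by exact_mod_cast h3
    exact not_dvd_of b c p hp (h4.trans (hprod c hc c hc)) h1
  refine ⟨insert b A, Finset.card_insert_of_notMem hbA, ?_, ?_⟩
  · intro a ha
    rcases Finset.mem_insert.1 ha with rfl | h
    · exact hbpos
    · exact hpos a h
  · -- classify the products
    have cls : ∀ x ∈ (insert b A) * (insert b A), (∃ a ∈ A, ∃ c ∈ A, x = a * c) ∨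
        (∃ c ∈ A, x = b * c) ∨ x = b * b := by
      intro x hx
      obtain ⟨u, hu, v, hv, rfl⟩ := Finset.mem_mul.1 hx
      rcases Finset.mem_insert.1 hu with rfl | hu <;> rcases Finset.mem_insert.1 hv with rfl | hv
      · right; right; rfl
      · right; left; exact ⟨v, hv, rfl⟩
      · right; left; exact ⟨u, hu, mul_comm _ _⟩
      · left; exact ⟨u, hu, v, hv, rfl⟩
    intro x hx y hy hxy
    rcases cls x hx with ⟨a, ha, c, hc, rfl⟩ | ⟨c, hc, rfl⟩ | rfl <;>
      rcases cls y hy with ⟨a', ha', c', hc', rfl⟩ | ⟨c', hc', rfl⟩ | rfl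
    · exact hcop _ (Finset.mul_mem_mul ha hc) _ (Finset.mul_mem_mul ha' hc') hxy
    · exact c1 a ha c hc c'
    · exact c1 a ha c hc b
    · exact (c1 a' ha' c' hc' c).symm
    · exact c2 c hc c' hc' (fun h => hxy (by rw [h]))
    · exact c3 c hc
    · exact (c1 a' ha' c' hc' b).symm
    · exact (c3 c' hc').symm
    · exact absurd rfl hxy

lemma exists_cop (m : ℕ) : ∃ A : Finset ℕ, A.card = m ∧ Cop A := by
  induction m with
  | zero =>
    refine ⟨∅, rfl, by simp, by simp⟩
  | succ m ih =>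
    obtain ⟨A, hA, hc⟩ := ih
    obtain ⟨B, hB, hcB⟩ := step A hc
    exact ⟨B, by rw [hB, hA], hcB⟩

/-- the counting argument -/
lemma count (Y E F : Finset ℕ) (f : ℕ → ℕ)
    (hY : ∀ x ∈ Y, 1 < x) (hcop : ∀ x ∈ Y, ∀ y ∈ Y, x ≠ y → Nat.Coprime x y)
    (hfF : ∀ x ∈ Y, f x ∈ F) (hfd : ∀ x ∈ Y, f x ∣ x) (hfq : ∀ x ∈ Y, x.minFac ∣ f x)
    (K : ℕ) (hK : K + 1 ≤ E.card) : K * Y.card ≤ (E * F).card + K * K := by
  classical
  -- `q_y` divides `f x` only if `x = y`
  have hq : ∀ x ∈ Y, ∀ y ∈ Y, y.minFac ∣ f x → x = y := by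
    intro x hx y hy h
    by_contra hne
    have h1 : y.minFac ∣ x := h.trans (hfd x hx)
    have h2 : y.minFac ∣ y := Nat.minFac_dvd y
    have h3 := Nat.dvd_gcd h1 h2
    rw [Nat.coprime_iff_gcd_eq_one.1 (hcop x hx y hy hne)] at h3
    have h4 := Nat.minFac_prime (hY y hy).ne'
    exact h4.one_lt.ne' (Nat.dvd_one.1 h3)
  have hfpos : ∀ x ∈ Y, 0 < f x := by
    intro x hx
    exact Nat.pos_of_dvd_of_pos (hfd x hx) (by have := hY x hx; omega)
  have hinj : ∀ x ∈ Y, ∀ y ∈ Y, f x = f y → x = y := by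
    intro x hx y hy h
    exact hq x hx y hy (h ▸ hfq y hy)
  obtain ⟨S, hSE, hScard⟩ := Finset.exists_subset_card_eq (s := E.erase 0) (n := K) (by
    have := Finset.pred_card_le_card_erase (s := E) (a := 0)
    omega)
  have hSpos : ∀ s ∈ S, 0 < s := by
    intro s hs
    exact Nat.pos_of_ne_zero (Finset.ne_of_mem_erase (hSE hs))
  let T : ℕ → Finset ℕ := fun s => Y.image (fun x => s * f x)
  have hTcard : ∀ s ∈ S, (T s).card = Y.card := by
    intro s hs
    apply Finset.card_image_of_injOn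
    intro x hx y hy h
    exact hinj x hx y hy (Nat.eq_of_mul_eq_mul_left (hSpos s hs) h)
  have hTint : ∀ s ∈ S, ∀ t ∈ S, s ≠ t → (T s ∩ T t).card ≤ 1 := by
    intro s hs t ht hst
    rw [Finset.card_le_one]
    intro u hu v hv
    rw [Finset.mem_inter, Finset.mem_image, Finset.mem_image] at hu hv
    obtain ⟨⟨x, hx, hxu⟩, ⟨y, hy, hyu⟩⟩ := hu
    obtain ⟨⟨x', hx', hxv⟩, ⟨y', hy', hyv⟩⟩ := hv
    -- s f x = t f y, s f x' = t f y'
    have hxy : x ≠ y := by
      rintro rfl
      apply hst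
      exact Nat.eq_of_mul_eq_mul_right (hfpos x hx) (hxu.trans hyu.symm)
    have hcross : f x * f y' = f y * f x' := by
      have h1 : s * f x = t * f y := hxu.trans hyu.symm
      have h2 : s * f x' = t * f y' := hxv.trans hyv.symm
      have h3 : (s * t) * (f x * f y') = (s * t) * (f y * f x') := by
        calc (s * t) * (f x * f y') = (s * f x) * (t * f y') := by ring
          _ = (t * f y) * (s * f x') := by rw [h1, h2]
          _ = (s * t) * (f y * f x') := by ring
      exact Nat.eq_of_mul_eq_mul_left (Nat.mul_pos (hSpos s hs) (hSpos t ht)) h3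
    have hp := Nat.minFac_prime (hY y hy).ne'
    have h4 : y.minFac ∣ f x * f y' := by
      rw [hcross]; exact Dvd.dvd.mul_right (hfq y hy) _
    have h5 : y' = y := by
      rcases (Nat.Prime.dvd_mul hp).1 h4 with h | h
      · exact absurd (hq x hx y hy h) hxy
      · exact hq y' hy' y hy h
    rw [← hyu, ← hyv, h5]
  -- union bound
  have hunion : ∀ R : Finset ℕ, R ⊆ S → R.card * Y.card ≤ (R.biUnion T).card + R.card * R.card := by
    intro R
    induction R using Finset.induction_on with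
    | empty => intro _; simp
    | insert r R hr ih =>
      intro hRS
      have hR : R ⊆ S := fun x hx => hRS (Finset.mem_insert_of_mem hx)
      have hrS : r ∈ S := hRS (Finset.mem_insert_self _ _)
      have ih' := ih hR
      rw [Finset.card_insert_of_notMem hr, Finset.biUnion_insert]
      have h1 := Finset.card_union_add_card_inter (T r) (R.biUnion T)
      have h2 : (T r ∩ R.biUnion T).card ≤ R.card := by
        have h3 : T r ∩ R.biUnion T ⊆ R.biUnion (fun t => T r ∩ T t) := by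
          intro u hu
          rw [Finset.mem_inter, Finset.mem_biUnion] at hu
          obtain ⟨hu1, t, ht, hu2⟩ := hu
          rw [Finset.mem_biUnion]
          exact ⟨t, ht, Finset.mem_inter.2 ⟨hu1, hu2⟩⟩
        refine (Finset.card_le_card h3).trans (Finset.card_biUnion_le.trans ?_)
        refine (Finset.sum_le_card_nsmul _ _ 1 ?_).trans (by simp)
        intro t ht
        apply hTint r hrS t (hR ht)
        rintro rfl
        exact hr ht
      rw [hTcard r hrS] at h1
      nlinarith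
  have h1 := hunion S (Finset.Subset.refl S)
  rw [hScard] at h1
  have h2 : S.biUnion T ⊆ E * F := by
    intro u hu
    rw [Finset.mem_biUnion] at hu
    obtain ⟨s, hs, hu⟩ := hu
    rw [Finset.mem_image] at hu
    obtain ⟨x, hx, rfl⟩ := hu
    exact Finset.mul_mem_mul (Finset.mem_of_mem_erase (hSE hs)) (hfF x hx)
  have h3 := Finset.card_le_card h2
  omega

/-- the shift `X + 1` -/
def shift (X : Finset ℕ) : Finset ℕ := X.image (fun x => x + 1)

/-- Q1 is false.  (`A` is a finite set of positive integers; the statement denied is literally the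
one asked for, with all sufficiently large finite sets A.) -/
theorem result : ¬ ∃ c₃ c₄ δ : ℝ, 0 < c₃ ∧ 0 < c₄ ∧ 0 < δ ∧ ∃ N : ℕ, ∀ A : Finset ℕ,
    (∀ a ∈ A, 0 < a) → N ≤ A.card → ∃ E F : Finset ℕ,
      ((A * A).card : ℝ) ^ δ ≤ (E.card : ℝ) ∧ ((A * A).card : ℝ) ^ δ ≤ (F.card : ℝ) ∧
      ((E * F).card : ℝ) ≤ c₃ * ((A * A).card : ℝ) ∧
      c₄ * ((A * A).card : ℝ) ≤ ((shift (A * A) ∩ (E * F)).card : ℝ) := by
  classical
  rintro ⟨c₃, c₄, δ, hc3, hc4, hδ, N, h⟩
  obtain ⟨K, hK⟩ := exists_nat_gt ((2 * c₃ + 1) / c₄)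
  -- a large size
  have htend : Filter.Tendsto (fun n : ℕ => (n : ℝ) ^ δ) Filter.atTop Filter.atTop :=
    (tendsto_rpow_atTop hδ).comp tendsto_natCast_atTop_atTop
  obtain ⟨n0, hn0⟩ := (Filter.tendsto_atTop.1 htend ((K : ℝ) + 1)).exists_forall_of_atTop
  obtain ⟨A, hAcard, hApos, hAcop⟩ := exists_cop (N + n0 + 2 * K * K + 1)
  obtain ⟨E, F, hE, hF, hEF, hcap⟩ := h A hApos (by omega)
  set n := (A * A).card with hn
  have hAn : A.card ≤ n := by
    rcases A.eq_empty_or_nonempty with h0 | hne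
    · rw [h0] at hAcard
      simp at hAcard
    · obtain ⟨a, ha⟩ := hne
      exact Finset.card_le_card_of_injOn (fun x => a * x)
        (fun x hx => Finset.mul_mem_mul ha hx)
        (fun x _ y _ hxy => Nat.eq_of_mul_eq_mul_left (hApos a ha) hxy)
  have hKE : K + 1 ≤ E.card := by
    have h1 := hn0 n (by omega)
    have h2 : ((K + 1 : ℕ) : ℝ) ≤ (E.card : ℝ) := by push_cast; linarith
    exact_mod_cast h2
  have hKF : K + 1 ≤ F.card := by
    have h1 := hn0 n (by omega)
    have h2 : ((K + 1 : ℕ) : ℝ) ≤ (F.card : ℝ) := by push_cast; linarith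
    exact_mod_cast h2
  set Y := shift (A * A) ∩ (E * F) with hYdef
  have hYprop : ∀ x ∈ Y, ∃ z ∈ A * A, x = z + 1 := by
    intro x hx
    rw [hYdef, Finset.mem_inter, shift, Finset.mem_image] at hx
    obtain ⟨⟨z, hz, hzx⟩, _⟩ := hx
    exact ⟨z, hz, hzx.symm⟩
  have hY1 : ∀ x ∈ Y, 1 < x := by
    intro x hx
    obtain ⟨z, hz, rfl⟩ := hYprop x hx
    obtain ⟨a, ha, c, hc, rfl⟩ := Finset.mem_mul.1 hz
    have := Nat.mul_pos (hApos a ha) (hApos c hc)
    omega
  have hYcop : ∀ x ∈ Y, ∀ y ∈ Y, x ≠ y → Nat.Coprime x y := by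
    intro x hx y hy hxy
    obtain ⟨z, hz, rfl⟩ := hYprop x hx
    obtain ⟨w, hw, rfl⟩ := hYprop y hy
    exact hAcop z hz w hw (fun h => hxy (by rw [h]))
  have hfac : ∀ x : ℕ, ∃ ef : ℕ × ℕ, x ∈ Y → ef.1 ∈ E ∧ ef.2 ∈ F ∧ ef.1 * ef.2 = x := by
    intro x
    by_cases hx : x ∈ Y
    · have hx' := hx
      rw [hYdef, Finset.mem_inter] at hx'
      obtain ⟨e, he, f, hf, hef⟩ := Finset.mem_mul.1 hx'.2
      exact ⟨(e, f), fun _ => ⟨he, hf, hef⟩⟩
    · exact ⟨(0, 0), fun h => absurd h hx⟩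
  choose ef hef using hfac
  set YF := Y.filter (fun x => x.minFac ∣ (ef x).2) with hYF
  set YE := Y.filter (fun x => x.minFac ∣ (ef x).1) with hYE
  have hsub : ∀ x ∈ YF, x ∈ Y := fun x hx => (Finset.mem_filter.1 hx).1
  have hsub' : ∀ x ∈ YE, x ∈ Y := fun x hx => (Finset.mem_filter.1 hx).1
  have hcover : Y.card ≤ YF.card + YE.card := by
    have : Y ⊆ YF ∪ YE := by
      intro x hx
      rw [Finset.mem_union, hYF, hYE, Finset.mem_filter, Finset.mem_filter]
      have hp := Nat.minFac_prime (hY1 x hx).ne'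
      have h1 : x.minFac ∣ (ef x).1 * (ef x).2 := by
        rw [(hef x hx).2.2]; exact Nat.minFac_dvd x
      rcases (Nat.Prime.dvd_mul hp).1 h1 with h | h
      · right; exact ⟨hx, h⟩
      · left; exact ⟨hx, h⟩
    exact (Finset.card_le_card this).trans (Finset.card_union_le _ _)
  have b1 := count YF E F (fun x => (ef x).2) (fun x hx => hY1 x (hsub x hx))
    (fun x hx y hy => hYcop x (hsub x hx) y (hsub y hy)) (fun x hx => (hef x (hsub x hx)).2.1)
    (fun x hx => ⟨(ef x).1, by rw [mul_comm]; exact ((hef x (hsub x hx)).2.2).symm⟩)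
    (fun x hx => (Finset.mem_filter.1 hx).2) K hKE
  have b2 := count YE F E (fun x => (ef x).1) (fun x hx => hY1 x (hsub' x hx))
    (fun x hx y hy => hYcop x (hsub' x hx) y (hsub' y hy)) (fun x hx => (hef x (hsub' x hx)).1)
    (fun x hx => ⟨(ef x).2, ((hef x (hsub' x hx)).2.2).symm⟩)
    (fun x hx => (Finset.mem_filter.1 hx).2) K hKF
  rw [mul_comm F E] at b2
  have b3 : K * Y.card ≤ 2 * (E * F).card + 2 * (K * K) := by nlinarith
  have b4 : (K : ℝ) * (Y.card : ℝ) ≤ 2 * ((E * F).card : ℝ) + 2 * ((K : ℝ) * K) := by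
    exact_mod_cast b3
  have hnK : (2 * (K : ℝ) * K : ℝ) < n := by
    have : 2 * K * K < n := by omega
    exact_mod_cast this
  have hn0' : (0 : ℝ) < n := by
    have : (0 : ℝ) ≤ 2 * (K : ℝ) * K := by positivity
    linarith
  rw [div_lt_iff₀ hc4] at hK
  have b5 : (K : ℝ) * (c₄ * n) ≤ (K : ℝ) * (Y.card : ℝ) :=
    mul_le_mul_of_nonneg_left hcap (Nat.cast_nonneg K)
  have b6 : (2 * c₃ + 1) * n < (K : ℝ) * c₄ * n := by
    apply mul_lt_mul_of_pos_right hK hn0'
  nlinarith

end Pool.Agent.Results.MP_fd999f_co.CoprimeShift
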